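import Pool.Agent.N102.FL.LStm

/-!
Project FL2 (helper102), piece OFF (helper592): local uniformization of local rings for systems of
equations in a torus with independent gradients. The proofs follow those of Pool.Agent.W418.LU2.
-/

set_option autoImplicit false
set_option linter.unusedVariables false
set_option linter.unusedSectionVars false

universe u

open Pool.Agent.W418.LU2 IsLocalRing

namespace Pool.Agent.N592.FL.Off

open Pool.Agent.N102.FL

variable {E K : Type u} [Field E] [Field K] [Algebra E K]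

/-- Local uniformization. -/
theorem plainJ (hcut : S_CUT.{u}) (V : ValuationSubring K) (R : Subring E) [IsNoetherianRing R]
    (hfr : ∀ z : E, ∃ a ∈ R, ∃ b ∈ R, b ≠ 0 ∧ z = a * b⁻¹)
    (hRV : ∀ a ∈ R, algebraMap E K a ∈ V)
    (hLU : LogUnif (V.comap (algebraMap E K)) R)
    {Θ : Type} [Fintype Θ] (y : Θ → K) (hy : ∀ θ, y θ ≠ 0)
    (hyfr : ∀ z : K, ∃ a b : MvPolynomial Θ E, ph (E := E) y b ≠ 0 ∧
      z * ph (E := E) y b = ph (E := E) y a)
    (𝒮 : Sys E Θ) (hOk : OkJ 𝒮 y V) (hc : ∀ k i, 𝒮.c k i ≠ 0)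
    (htr : Algebra.trdeg E K + (Fintype.card 𝒮.κ : Cardinal.{u}) = Fintype.card Θ)
    (Z : Set K) (hZf : Z.Finite) (hZm : ∀ z ∈ Z, Mon E y z) :
    ∃ T : Set K, T.Finite ∧ Subring.closure ((R.map (algebraMap E K) : Set K) ∪ T) ≤ V.toSubring ∧
      IsRegularLocalRing (lo V.toSubring
        (Subring.closure ((R.map (algebraMap E K) : Set K) ∪ T))) ∧
      (∀ z ∈ Z, z ∈ V → z ∈ lo V.toSubring
        (Subring.closure ((R.map (algebraMap E K) : Set K) ∪ T))) ∧
      ∀ z : K, ∃ a ∈ Subring.closure ((R.map (algebraMap E K) : Set K) ∪ T),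
        ∃ b ∈ Subring.closure ((R.map (algebraMap E K) : Set K) ∪ T), b ≠ 0 ∧ z = a * b⁻¹ := by
  classical
  have hZm' : ∀ z ∈ Z, ∃ (a : E) (m : Θ → ℤ), a ≠ 0 ∧ z = algebraMap E K a * mo y m := hZm
  choose! ez mz hez0 hmz using hZm'
  let Hc : Set E := Set.range fun q : Σ k, 𝒮.ι k => 𝒮.c q.1 q.2
  have hHcf : Hc.Finite := Set.finite_range _
  -- the base
  have hRW : R ≤ (V.comap (algebraMap E K)).toSubring := fun a ha => hRV a ha
  obtain ⟨Wb, fb, n0, x₀, hWbf, hfbR, hfb0, hWb, hx₀, hreg₀, hfbm, hHm⟩ :=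
    base (V.comap (algebraMap E K)) R hRW hfr hLU (Hc ∪ ez '' Z)
      (hHcf.union (hZf.image _)) (by
        rintro h (⟨⟨k, i⟩, rfl⟩ | ⟨z, hz, rfl⟩)
        · exact hc k i
        · exact hez0 z hz)
  set C := Subring.closure ((R : Set E) ∪ Wb) with hC
  have hCW : C ≤ (V.comap (algebraMap E K)).toSubring := by
    rw [hC, Subring.closure_le]
    rintro z (hz | hz)
    · exact hRW hz
    · exact (hWb z hz).1
  have hRC : R ≤ C := fun a ha => Subring.subset_closure (Or.inl ha)
  have hCE : ∀ a : E, ∃ b ∈ C, b ≠ 0 ∧ a * b ∈ C := by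
    intro a
    obtain ⟨a', ha', b, hb, hb0, rfl⟩ := hfr a
    refine ⟨b, hRC hb, hb0, ?_⟩
    rw [mul_assoc, inv_mul_cancel₀ hb0, mul_one]
    exact hRC ha'
  -- the construction
  obtain ⟨T, κ, _, x, hTf, hTV, hTm, hreg, hPMalg, hPMy, hGV⟩ := hcut E K Θ y hy V C (Fin n0) x₀
    hreg₀ hCW hCE 𝒮 hOk (fun k i => hHm _ (Or.inl ⟨⟨k, i⟩, rfl⟩)) hyfr htr
    ((fun z => (ez z, mz z)) '' Z) (hZf.image _) (by
      rintro _ ⟨z, hz, rfl⟩
      exact hHm _ (Or.inr ⟨z, hz, rfl⟩))
  have hBeq : Subring.closure ((R.map (algebraMap E K) : Set K) ∪ (algebraMap E K '' Wb ∪ T)) =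
      Subring.closure (C.map (algebraMap E K) ∪ T) := by
    apply le_antisymm
    · rw [Subring.closure_le]
      rintro z (⟨a, ha, rfl⟩ | ⟨w, hw, rfl⟩ | hz)
      · exact Subring.subset_closure (Or.inl ⟨a, hRC ha, rfl⟩)
      · exact Subring.subset_closure (Or.inl ⟨w, Subring.subset_closure (Or.inr hw), rfl⟩)
      · exact Subring.subset_closure (Or.inr hz)
    · rw [Subring.closure_le]
      rintro z (⟨c', hc', rfl⟩ | hz)
      · have h1 : C ≤ (Subring.closure ((R.map (algebraMap E K) : Set K) ∪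
            (algebraMap E K '' Wb ∪ T))).comap (algebraMap E K) := by
          rw [hC, Subring.closure_le]
          rintro c'' (h | h)
          · exact Subring.subset_closure (Or.inl ⟨c'', h, rfl⟩)
          · exact Subring.subset_closure (Or.inr (Or.inl ⟨c'', h, rfl⟩))
        exact h1 hc'
      · exact Subring.subset_closure (Or.inr (Or.inr hz))
  refine ⟨algebraMap E K '' Wb ∪ T, (hWbf.image _).union hTf, ?_⟩
  rw [hBeq]
  set B := Subring.closure (C.map (algebraMap E K) ∪ T) with hB
  have hBV : B ≤ V.toSubring := by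
    rw [hB, Subring.closure_le]
    rintro w (⟨c, hc, rfl⟩ | hw)
    · exact hCW hc
    · exact hTV w hw
  refine ⟨hBV, hreg.reg, ?_, ?_⟩
  · intro z hz hzV
    have h1 := hGV (ez z, mz z) ⟨z, hz, rfl⟩
    rw [← hmz z hz] at h1
    exact h1 hzV
  · -- the field of fractions
    let L : Subfield K := fr B
    have hBL : B ≤ L.toSubring := fun z hz =>
      ⟨1, B.one_mem, one_ne_zero, by rw [mul_one]; exact hz⟩
    have hEL : ∀ a : E, algebraMap E K a ∈ L := by
      intro a
      obtain ⟨b, hb, hb0, hab⟩ := hCE a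
      have hbB : algebraMap E K b ∈ B := Subring.subset_closure (Or.inl ⟨b, hb, rfl⟩)
      refine ⟨algebraMap E K b, hbB, (map_ne_zero _).2 hb0, ?_⟩
      rw [← map_mul]
      exact Subring.subset_closure (Or.inl ⟨_, hab, rfl⟩)
    have hPL : lo V.toSubring B ≤ L.toSubring := by
      rintro z ⟨a, ha, b, hb, hb0, -, rfl⟩
      exact L.mul_mem (hBL ha) (L.inv_mem (hBL hb))
    have hPMon : ∀ z, PMon (lo V.toSubring B) x z → z ∈ L := by
      rintro _ ⟨w, -, hw, -, δ, rfl⟩
      refine L.mul_mem (hPL hw) (L.prod_mem fun i _ => L.zpow_mem (hPL (hreg.mem i)) _)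
    have hyL : ∀ θ, y θ ∈ L := fun θ => hPMon _ (hPMy θ)
    have hphL : ∀ a : MvPolynomial Θ E, ph (E := E) y a ∈ L := by
      intro a
      induction a using MvPolynomial.induction_on with
      | C a =>
        have h1 : ph (E := E) y (MvPolynomial.C a) = algebraMap E K a :=
          MvPolynomial.aeval_C _ _
        rw [h1]
        exact hEL a
      | add a b ha hb => rw [map_add]; exact L.add_mem ha hb
      | mul_X a θ ha =>
        have h1 : ph (E := E) y (MvPolynomial.X θ) = y θ := MvPolynomial.aeval_X _ _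
        rw [map_mul, h1]
        exact L.mul_mem ha (hyL θ)
    intro z
    obtain ⟨a, b, hb, h1⟩ := hyfr z
    have h2 : z ∈ L := by
      have h3 : z = ph (E := E) y a * (ph (E := E) y b)⁻¹ := by
        rw [← h1, mul_inv_cancel_right₀ hb]
      rw [h3]
      exact L.mul_mem (hphL a) (L.inv_mem (hphL b))
    obtain ⟨b', hb', hb0', h3⟩ := h2
    exact ⟨z * b', h3, b', hb', hb0', by rw [mul_inv_cancel_right₀ hb0']⟩

/-- Local uniformization, with general base. -/
theorem plain2J (hcut : S_CUT.{u}) (V : ValuationSubring K) (R : Subring E)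
    (hRV : ∀ a ∈ R, algebraMap E K a ∈ V) (hR : HasLU R)
    {Θ : Type} [Fintype Θ] (y : Θ → K) (hy : ∀ θ, y θ ≠ 0)
    (hyfr : ∀ z : K, ∃ a b : MvPolynomial Θ E, ph (E := E) y b ≠ 0 ∧
      z * ph (E := E) y b = ph (E := E) y a)
    (𝒮 : Sys E Θ) (hOk : OkJ 𝒮 y V) (hc : ∀ k i, 𝒮.c k i ≠ 0)
    (htr : Algebra.trdeg E K + (Fintype.card 𝒮.κ : Cardinal.{u}) = Fintype.card Θ)
    (Z : Set K) (hZf : Z.Finite) (hZm : ∀ z ∈ Z, Mon E y z) :
    ∃ T : Set K, T.Finite ∧ Subring.closure ((R.map (algebraMap E K) : Set K) ∪ T) ≤ V.toSubring ∧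
      IsRegularLocalRing (lo V.toSubring
        (Subring.closure ((R.map (algebraMap E K) : Set K) ∪ T))) ∧
      (∀ z ∈ Z, z ∈ V → z ∈ lo V.toSubring
        (Subring.closure ((R.map (algebraMap E K) : Set K) ∪ T))) ∧
      ∀ z : K, ∃ a ∈ Subring.closure ((R.map (algebraMap E K) : Set K) ∪ T),
        ∃ b ∈ Subring.closure ((R.map (algebraMap E K) : Set K) ∪ T), b ≠ 0 ∧ z = a * b⁻¹ := by
  obtain ⟨S, hSf, hSV, hfr, hS⟩ := hR (V.comap (algebraMap E K)) (fun a ha => hRV a ha)
  obtain ⟨hN, hLU⟩ : IsNoetherianRing (Subring.closure ((R : Set E) ∪ S)) ∧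
      LogUnif (V.comap (algebraMap E K)) (Subring.closure ((R : Set E) ∪ S)) := by
    rcases hS with hS | hS
    · exact ⟨inferInstance, logUnif_of_dedekind _ _ hSV hfr⟩
    · exact hS
  obtain ⟨T, hTf, hTV, hT⟩ := plainJ hcut V (Subring.closure ((R : Set E) ∪ S)) hfr
    (fun a ha => hSV ha) hLU y hy hyfr 𝒮 hOk hc htr Z hZf hZm
  have hBeq : Subring.closure ((R.map (algebraMap E K) : Set K) ∪ (algebraMap E K '' S ∪ T)) =
      Subring.closure (((Subring.closure ((R : Set E) ∪ S)).map (algebraMap E K) : Set K) ∪ T) := by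
    apply le_antisymm
    · rw [Subring.closure_le]
      rintro z (⟨a, ha, rfl⟩ | ⟨w, hw, rfl⟩ | hz)
      · exact Subring.subset_closure (Or.inl ⟨a, Subring.subset_closure (Or.inl ha), rfl⟩)
      · exact Subring.subset_closure (Or.inl ⟨w, Subring.subset_closure (Or.inr hw), rfl⟩)
      · exact Subring.subset_closure (Or.inr hz)
    · rw [Subring.closure_le]
      rintro z (⟨c', hc', rfl⟩ | hz)
      · have h1 : Subring.closure ((R : Set E) ∪ S) ≤ (Subring.closure
            ((R.map (algebraMap E K) : Set K) ∪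
            (algebraMap E K '' S ∪ T))).comap (algebraMap E K) := by
          rw [Subring.closure_le]
          rintro c'' (h | h)
          · exact Subring.subset_closure (Or.inl ⟨c'', h, rfl⟩)
          · exact Subring.subset_closure (Or.inr (Or.inl ⟨c'', h, rfl⟩))
        exact h1 hc'
      · exact Subring.subset_closure (Or.inr (Or.inr hz))
  refine ⟨algebraMap E K '' S ∪ T, (hSf.image _).union hTf, ?_⟩
  rw [hBeq]
  exact ⟨hTV, hT⟩

/-- Local uniformization of local rings. -/
theorem t_off : S_CUT.{u} → S_OFF.{u} := by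
  classical
  intro hcut E K _ _ _ R₀ hR Θ _ y hy hyfr A G hG hGm hA q _ R _ _ _ _ _ V hV1 hV2 𝒮 hOk hc htr
  have hAR : ∀ a : A, algebraMap R K (algebraMap A R a) = a := by
    intro a
    rw [← IsScalarTower.algebraMap_apply A R K]
    rfl
  have hAV : ∀ a : A, (a : K) ∈ V := fun a => by
    rw [← hAR a]; exact hV1 _
  have hRA : ∀ a ∈ R₀, algebraMap E K a ∈ A := by
    intro a ha
    rw [hA]
    exact Subring.subset_closure (Or.inl ⟨a, ha, rfl⟩)
  obtain ⟨T, hTf, hTV, hreg, hZ, hfr⟩ := plain2J hcut V R₀ (fun a ha => hAV ⟨_, hRA a ha⟩) hR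
    y hy hyfr 𝒮 hOk hc htr G hG hGm
  set B₀ := Subring.closure ((R₀.map (algebraMap E K) : Set K) ∪ T) with hB₀
  have hAP : A ≤ lo V.toSubring B₀ := by
    rw [hA, Subring.closure_le]
    rintro z (hz | hz)
    · exact le_lo _ _ (Subring.subset_closure (Or.inl hz))
    · refine hZ z hz (hAV ⟨z, ?_⟩)
      rw [hA]
      exact Subring.subset_closure (Or.inr hz)
  have hRP : ∀ r : R, algebraMap R K r ∈ lo V.toSubring B₀ := by
    intro r
    obtain ⟨a, s, rfl⟩ := IsLocalization.exists_mk'_eq q.primeCompl r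
    have hsu : IsUnit (algebraMap A R (s : A)) := IsLocalization.map_units R s
    have h1 : algebraMap R K (IsLocalization.mk' R a s) * (s : A) = a := by
      have h2 := congrArg (algebraMap R K) (IsLocalization.mk'_spec R a s)
      rwa [map_mul, hAR, hAR] at h2
    have h2 : ((s : A) : K) ≠ 0 := by
      intro h0
      have h3 : (s : A) = 0 := Subtype.ext h0
      exact s.2 (by rw [h3]; exact q.zero_mem)
    have h3 : ((s : A) : K)⁻¹ ∈ V := by
      obtain ⟨s', hs'⟩ := isUnit_iff_exists_inv.1 hsu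
      have h4 := congrArg (algebraMap R K) hs'
      rw [map_mul, hAR, map_one] at h4
      rw [← eq_inv_of_mul_eq_one_right h4]
      exact hV1 s'
    have h4 : algebraMap R K (IsLocalization.mk' R a s) = (a : K) * ((s : A) : K)⁻¹ := by
      rw [← h1, mul_inv_cancel_right₀ h2]
    rw [h4]
    exact Subring.mul_mem _ (hAP a.2) (inv_mem_lo hTV (hAP (s : A).2) h2 h3)
  let B : Subalgebra R K := Algebra.adjoin R T
  have hBP : ∀ b ∈ B, b ∈ lo V.toSubring B₀ := by
    intro b hb
    induction hb using Algebra.adjoin_induction with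
    | mem b hb => exact le_lo _ _ (Subring.subset_closure (Or.inr hb))
    | algebraMap r => exact hRP r
    | add a b _ _ ha hb => exact Subring.add_mem _ ha hb
    | mul a b _ _ ha hb => exact Subring.mul_mem _ ha hb
  have hBV : ∀ b : B, (b : K) ∈ V := fun b => lo_le hTV (hBP b b.2)
  let P : Ideal B :=
    { carrier := {b | V.valuation (b : K) < 1}
      add_mem' := by
        intro a b ha hb
        exact lt_of_le_of_lt (V.valuation.map_add _ _) (max_lt ha hb)
      zero_mem' := by
        change V.valuation ((0 : B) : K) < 1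
        rw [ZeroMemClass.coe_zero, map_zero]
        exact zero_lt_one
      smul_mem' := by
        intro a b hb
        change V.valuation ((a : K) * (b : K)) < 1
        rw [map_mul]
        have h1 := (V.valuation_le_one_iff _).2 (hBV a)
        calc V.valuation (a : K) * V.valuation (b : K) ≤ 1 * V.valuation (b : K) :=
              mul_le_mul_left h1 _
          _ = V.valuation (b : K) := one_mul _
          _ < 1 := hb }
  have hPmem : ∀ b : B, b ∈ P ↔ V.valuation (b : K) < 1 := fun b => Iff.rfl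
  have hP : P.IsPrime := by
    refine ⟨?_, ?_⟩
    · intro h
      have h1 : (1 : B) ∈ P := by rw [h]; trivial
      rw [hPmem, OneMemClass.coe_one, map_one] at h1
      exact lt_irrefl _ h1
    · intro a b hab
      rw [hPmem, hPmem]
      rw [hPmem] at hab
      by_contra h
      push Not at h
      have h1 : V.valuation (a : K) = 1 :=
        le_antisymm ((V.valuation_le_one_iff _).2 (hBV a)) h.1
      have h2 : V.valuation (b : K) = 1 :=
        le_antisymm ((V.valuation_le_one_iff _).2 (hBV b)) h.2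
      have h3 : V.valuation ((a * b : B) : K) = 1 := by
        change V.valuation ((a : K) * (b : K)) = 1
        rw [map_mul, h1, h2, one_mul]
      rw [h3] at hab
      exact lt_irrefl _ hab
  refine ⟨B, ⟨hTf.toFinset, by rw [hTf.coe_toFinset]⟩, hBV, P, hP, hPmem, ?_⟩
  refine regular_localization (B.val : B →ₐ[R] K).toRingHom Subtype.val_injective V P
    (fun b => Iff.rfl) hBV ?_
  have hrange : (B.val : B →ₐ[R] K).toRingHom.range = B.toSubring := by
    ext z
    constructor
    · rintro ⟨b, rfl⟩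
      exact b.2
    · intro hz
      exact ⟨⟨z, hz⟩, rfl⟩
  have heq : lo V.toSubring (B.val : B →ₐ[R] K).toRingHom.range = lo V.toSubring B₀ := by
    rw [hrange]
    refine lo_eq hTV ?_ (fun b hb => hBP b hb)
    rw [hB₀, Subring.closure_le]
    rintro z (⟨a, ha, rfl⟩ | hz)
    · have h1 : algebraMap E K a = algebraMap R K (algebraMap A R ⟨algebraMap E K a, hRA a ha⟩) :=
        (hAR ⟨algebraMap E K a, hRA a ha⟩).symm
      rw [h1]
      exact B.algebraMap_mem _
    · exact Algebra.subset_adjoin hz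
  rw [heq]
  exact hreg

end Pool.Agent.N592.FL.Off
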